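import Pool.Agent.Q253.NF.Stm3
import Pool.Agent.Q174.LQ.CT
import Pool.Agent.Q151.LQ.MV

set_option autoImplicit false

/-! # Project NF, jobs EXPM and MOMT: almost periodic functions with nonnegative coefficients -/

namespace Pool.Agent.Q129.NF

open MeasureTheory Filter Topology Set Complex
open Pool.Agent.Q253.LQ (I0)
open Pool.Agent.Q253.LM (NoRel IdxM)
open Pool.Agent.Q253.NF (APF RR gg TN)

/-- the sum of an even function over the reals -/
lemma even_sum {F : ℝ → ℝ} (hF : Summable F) (he : ∀ x, F (-x) = F x) :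
    ∑' x : ℝ, F x = F 0 + 2 * ∑' x : {x : ℝ // 0 < x}, F x := by
  classical
  set P : Set ℝ := {x | 0 < x} with hP
  set M : Set ℝ := {x | x < 0} with hM
  have h1 : ∑' x : {x : ℝ // 0 < x}, F x = ∑' x : ℝ, P.indicator F x := tsum_subtype P F
  have h2 : ∑' x : ℝ, M.indicator F x = ∑' x : ℝ, P.indicator F x := by
    rw [← (Equiv.neg ℝ).tsum_eq (fun x : ℝ => M.indicator F x)]
    refine tsum_congr fun x => ?_
    simp only [Equiv.neg_apply]
    by_cases hx : 0 < x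
    · rw [indicator_of_mem (show -x ∈ M from neg_lt_zero.2 hx), indicator_of_mem (show x ∈ P from hx), he]
    · rw [indicator_of_notMem (show -x ∉ M from fun h => hx (neg_lt_zero.1 h)), indicator_of_notMem (show x ∉ P from hx)]
  have h3 : ∑' x : ℝ, ({0} : Set ℝ).indicator F x = F 0 := by
    rw [tsum_eq_single 0]
    · exact indicator_of_mem (mem_singleton 0) F
    · intro b hb
      exact indicator_of_notMem (by simpa using hb) F
  have e : ∀ x, F x = P.indicator F x + M.indicator F x + ({0} : Set ℝ).indicator F x := by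
    intro x
    rcases lt_trichotomy x 0 with hx | hx | hx
    · rw [indicator_of_notMem (show x ∉ P from not_lt.2 hx.le), indicator_of_mem (show x ∈ M from hx),
        indicator_of_notMem (show x ∉ ({0} : Set ℝ) from hx.ne)]
      ring
    · subst hx
      have a1 : (0 : ℝ) ∉ P := fun h => lt_irrefl (0 : ℝ) h
      have a2 : (0 : ℝ) ∉ M := fun h => lt_irrefl (0 : ℝ) h
      rw [indicator_of_notMem a1, indicator_of_notMem a2, indicator_of_mem (mem_singleton 0)]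
      ring
    · rw [indicator_of_mem (show x ∈ P from hx), indicator_of_notMem (show x ∉ M from not_lt.2 hx.le),
        indicator_of_notMem (show x ∉ ({0} : Set ℝ) from hx.ne')]
      ring
  calc ∑' x : ℝ, F x = ∑' x : ℝ, (P.indicator F x + M.indicator F x + ({0} : Set ℝ).indicator F x) := tsum_congr e
    _ = (∑' x : ℝ, P.indicator F x + ∑' x : ℝ, M.indicator F x) + ∑' x : ℝ, ({0} : Set ℝ).indicator F x := by
        rw [Summable.tsum_add ((hF.indicator P).add (hF.indicator M)) (hF.indicator _),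
          Summable.tsum_add (hF.indicator P) (hF.indicator M)]
    _ = _ := by rw [h1, h2, h3]; ring

lemma sm_of_le {E : Type} [NormedAddCommGroup E] [NormedSpace ℝ E] [CompleteSpace E] {m : ℝ → ℕ}
    (hm : Summable (fun γ : ℝ => (m γ : ℝ) / (1 + γ ^ 2))) {g : ℝ → E} {C : ℝ} (h : ∀ γ, ‖g γ‖ ≤ C / (1 + γ ^ 2)) :
    Summable (fun γ : ℝ => (m γ : ℝ) • g γ) := by
  refine Summable.of_norm_bounded (hm.mul_left C) fun γ => ?_
  rw [norm_smul, Real.norm_of_nonneg (Nat.cast_nonneg _)]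
  calc (m γ : ℝ) * ‖g γ‖ ≤ (m γ : ℝ) * (C / (1 + γ ^ 2)) := mul_le_mul_of_nonneg_left (h γ) (Nat.cast_nonneg _)
    _ = _ := by ring

variable {N : ℝ → ℕ}

/-- the ordinate -/
def gi (i : IdxM N) : ℝ := i.1.1

lemma gi_pos (i : IdxM N) : 0 < gi i := i.1.2

/-- the coefficient -/
noncomputable def ci (i : IdxM N) : ℝ := 2 / (1 + gi i ^ 2)

lemma ci_pos (i : IdxM N) : 0 < ci i := by unfold ci; positivity

lemma idx_sm {h : ℝ → ℝ} (hs : Summable fun γ : ℝ => (N γ : ℝ) * |h γ|) : Summable fun i : IdxM N => h (gi i) := by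
  have h1 : Summable fun i : IdxM N => |h (gi i)| := by
    rw [summable_sigma_of_nonneg fun i => abs_nonneg _]
    refine ⟨fun γ => (hasSum_fintype _).summable, ?_⟩
    have h2 : Summable fun γ : {γ : ℝ // 0 < γ} => (N γ : ℝ) * |h γ| := hs.comp_injective Subtype.val_injective
    refine h2.congr fun γ => ?_
    rw [tsum_fintype]
    unfold gi
    simp
  exact h1.of_abs

lemma idx_sum {h : ℝ → ℝ} (hs : Summable fun γ : ℝ => (N γ : ℝ) * |h γ|) :
    ∑' i : IdxM N, h (gi i) = ∑' γ : {γ : ℝ // 0 < γ}, (N γ : ℝ) * h γ := by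
  rw [(idx_sm hs).tsum_sigma]
  refine tsum_congr fun γ => ?_
  rw [tsum_fintype]
  unfold gi
  simp

variable {f : ℝ → ℝ} (hA : APF N f)

include hA

lemma ci_sm : Summable (ci : IdxM N → ℝ) := by
  refine idx_sm (h := fun γ => 2 / (1 + γ ^ 2)) ?_
  refine (hA.sum.mul_left 2).congr fun γ => ?_
  rw [abs_of_nonneg (by positivity)]
  ring

/-- the expansion -/
theorem f_exp : ∃ C : ℝ, ∀ u : ℝ, 0 ≤ u →
    |f u - (2 * (N 0 : ℝ) + ∑' i : IdxM N, 2 * ci i * Real.cos (gi i * u))| ≤ C * Real.exp (-(u / 4)) := by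
  obtain ⟨C, hC⟩ := hA.exp
  refine ⟨C, fun u hu => ?_⟩
  have hm := hA.sum
  set g : ℝ → ℝ := fun γ => 2 / (1 + γ ^ 2) * Real.cos (γ * u) with hg
  set gc : ℝ → ℂ := fun γ => ((2 / (1 + γ ^ 2) : ℝ) : ℂ) * cexp (I * γ * u) with hgc
  have hgcb : ∀ γ, ‖gc γ‖ ≤ 2 / (1 + γ ^ 2) := by
    intro γ
    rw [hgc]
    simp only
    rw [norm_mul, Complex.norm_real, Real.norm_of_nonneg (by positivity), Complex.norm_exp]
    have e : (I * γ * u).re = 0 := by
      rw [mul_assoc, ← ofReal_mul, mul_comm, re_ofReal_mul, I_re, mul_zero]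
    rw [e, Real.exp_zero, mul_one]
  have hgre : ∀ γ, (gc γ).re = g γ := by
    intro γ
    rw [hgc, hg]
    simp only
    rw [re_ofReal_mul]
    congr 1
    have e : I * (γ : ℂ) * u = ((γ * u : ℝ) : ℂ) * I := by push_cast; ring
    rw [e, Complex.exp_ofReal_mul_I_re]
  have hgb : ∀ γ, |g γ| ≤ 2 / (1 + γ ^ 2) := fun γ => by
    rw [← hgre]
    exact (abs_re_le_norm _).trans (hgcb γ)
  have h1 : ‖((f u : ℝ) : ℂ) - ∑' γ : ℝ, (N γ : ℝ) • gc γ‖ ≤ C * Real.exp (-(u / 4)) := by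
    have e : ∀ γ : ℝ, (N γ : ℝ) • gc γ =
        (((N γ : ℝ) * (2 / (1 + γ ^ 2)) : ℝ) : ℂ) * cexp (I * γ * u) := by
      intro γ
      rw [hgc]
      simp only
      rw [Complex.real_smul, Complex.ofReal_mul]
      ring
    simp_rw [e]
    exact hC u hu
  have h2 : (∑' γ : ℝ, (N γ : ℝ) • gc γ).re = ∑' γ : ℝ, (N γ : ℝ) * g γ := by
    rw [Complex.re_tsum (sm_of_le hm hgcb)]
    refine tsum_congr fun γ => ?_
    rw [Complex.smul_re, hgre, smul_eq_mul]
  have h3 : ∑' γ : ℝ, (N γ : ℝ) * g γ = 2 * (N 0 : ℝ) + ∑' i : IdxM N, 2 * ci i * Real.cos (gi i * u) := by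
    have hs : Summable fun γ : ℝ => (N γ : ℝ) * g γ := by
      have := sm_of_le (E := ℝ) hm (g := g) (C := 2) (fun γ => by rw [Real.norm_eq_abs]; exact hgb γ)
      exact this
    rw [even_sum hs fun x => by
      rw [hA.even, hg]
      simp only
      rw [neg_sq, neg_mul, Real.cos_neg]]
    have hs2 : Summable fun γ : ℝ => (N γ : ℝ) * |g γ| := by
      have := sm_of_le (E := ℝ) hm (g := fun γ => |g γ|) (C := 2) (fun γ => by
        rw [Real.norm_eq_abs, abs_abs]; exact hgb γ)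
      exact this
    rw [← idx_sum hs2]
    have e1 : (N 0 : ℝ) * g 0 = 2 * (N 0 : ℝ) := by
      rw [hg]
      simp only
      rw [zero_mul, Real.cos_zero]
      norm_num
      ring
    rw [e1, ← tsum_mul_left]
    congr 1
    refine tsum_congr fun i => ?_
    rw [hg]
    unfold ci
    ring
  have h4 : |(((f u : ℝ) : ℂ) - ∑' γ : ℝ, (N γ : ℝ) • gc γ).re| ≤ C * Real.exp (-(u / 4)) :=
    (abs_re_le_norm _).trans h1
  rw [sub_re, ofReal_re, h2, h3] at h4
  exact h4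

omit hA in
/-- the almost periodic part -/
noncomputable def AP (N : ℝ → ℕ) (u : ℝ) : ℝ := ∑' i : IdxM N, 2 * ci i * Real.cos (gi i * u)

lemma AP_cont : Continuous (AP N) := by
  unfold AP
  refine continuous_tsum (fun i => by fun_prop) ((ci_sm hA).mul_left 2) fun i u => ?_
  rw [norm_mul, Real.norm_of_nonneg (by have := ci_pos i; positivity)]
  have := Real.abs_cos_le_one (gi i * u)
  rw [Real.norm_eq_abs]
  have h2 := ci_pos i
  nlinarith

/-- the remainder -/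
theorem rem : ∃ r : ℝ → ℝ, Measurable r ∧ (∃ B : ℝ, ∀ u, |r u| ≤ B) ∧ Tendsto r atTop (𝓝 0) ∧
    ∀ u : ℝ, 0 ≤ u → f u = 2 * (N 0 : ℝ) + AP N u + r u := by
  classical
  obtain ⟨C, hC⟩ := f_exp hA
  have hcE := hA.cont
  refine ⟨fun u => if 0 ≤ u then f u - (2 * (N 0 : ℝ) + AP N u) else 0, ?_, ⟨|C|, fun u => ?_⟩, ?_, fun u hu => ?_⟩
  · refine Measurable.ite measurableSet_Ici ?_ measurable_const
    exact (hcE.sub (continuous_const.add (AP_cont hA))).measurable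
  · simp only
    split_ifs with hu
    · refine (hC u hu).trans ?_
      have h1 : Real.exp (-(u / 4)) ≤ 1 := Real.exp_le_one_iff.2 (by linarith)
      have h2 : 0 < Real.exp (-(u / 4)) := Real.exp_pos _
      calc C * Real.exp (-(u / 4)) ≤ |C| * Real.exp (-(u / 4)) := mul_le_mul_of_nonneg_right (le_abs_self _) h2.le
        _ ≤ |C| * 1 := mul_le_mul_of_nonneg_left h1 (abs_nonneg _)
        _ = |C| := mul_one _
    · rw [abs_zero]; exact abs_nonneg _
  · have h1 : Tendsto (fun u : ℝ => C * Real.exp (-(u / 4))) atTop (𝓝 0) := by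
      have h2 : Tendsto (fun u : ℝ => Real.exp (-(u / 4))) atTop (𝓝 0) :=
        Real.tendsto_exp_neg_atTop_nhds_zero.comp (tendsto_id.atTop_div_const (by norm_num : (0 : ℝ) < 4))
      have h3 := h2.const_mul C
      rwa [mul_zero] at h3
    refine squeeze_zero_norm' ?_ h1
    filter_upwards [eventually_ge_atTop 0] with u hu
    rw [if_pos hu, Real.norm_eq_abs]
    exact hC u hu
  · simp only [if_pos hu]
    ring

/-- the constant -/
theorem RR_eq {K : ℂ → ℂ} (hK : ∀ t : ℂ, ‖t‖ = 1 / 2 → K t = ∑' γ : ℝ, (N γ : ℂ) / (1 + (γ : ℂ) ^ 2 - t))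
    {lam : ℝ} (h0 : 0 < lam) (h1 : lam ≤ 1 / 8) :
    RR K lam = Real.exp ((N 0 : ℝ) / 2 * Real.log (I0 ((4 * lam : ℝ) : ℂ)).re) *
      (∏' i : IdxM N, (I0 ((2 * lam * ci i : ℝ) : ℂ)).re) ∧ 0 < ∏' i : IdxM N, (I0 ((2 * lam * ci i : ℝ) : ℂ)).re := by
  have hsm := hA.sum
  obtain ⟨hs, hI⟩ := Pool.Agent.Q174.LQ.t_CT (fun γ => (N γ : ℝ)) K lam (fun γ => Nat.cast_nonneg _) hsm
    (fun t ht => by
      rw [hK t ht]
      simp only [Complex.ofReal_natCast]) h0 h1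
  set ℓ : ℝ → ℝ := fun γ => Real.log (I0 ((4 * lam / (1 + γ ^ 2) : ℝ) : ℂ)).re with hℓ
  have hℓ0 : ∀ γ, 0 ≤ ℓ γ := fun γ => Real.log_nonneg (Pool.Agent.Q174.LQ.one_le_I0 _)
  have hs' : Summable fun γ : ℝ => (N γ : ℝ) * |ℓ γ| := by
    refine hs.congr fun γ => ?_
    rw [abs_of_nonneg (hℓ0 γ)]
  have h2 : (1 / (4 * Real.pi * I) * ∮ t in C(0, 1 / 2), K t * Complex.log (I0 (4 * lam / t))).re =
      1 / 2 * ∑' γ : ℝ, (N γ : ℝ) * ℓ γ := by
    rw [hI]
    have e : 1 / (4 * Real.pi * I) * (2 * Real.pi * I * ((∑' γ : ℝ, (N γ : ℝ) * ℓ γ : ℝ) : ℂ)) =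
        ((1 / 2 * ∑' γ : ℝ, (N γ : ℝ) * ℓ γ : ℝ) : ℂ) := by
      have hpi : (Real.pi : ℂ) ≠ 0 := by exact_mod_cast Real.pi_ne_zero
      push_cast
      field_simp
      norm_num
    rw [e, ofReal_re]
  have h3 : ∑' γ : ℝ, (N γ : ℝ) * ℓ γ = (N 0 : ℝ) * ℓ 0 + 2 * ∑' i : IdxM N, ℓ (gi i) := by
    rw [even_sum hs fun x => by
      rw [hA.even, neg_sq], idx_sum hs']
  have h4 : ∀ i : IdxM N, ℓ (gi i) = Real.log (I0 ((2 * lam * ci i : ℝ) : ℂ)).re := by
    intro i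
    rw [hℓ]
    simp only
    unfold ci
    congr 4
    ring
  have h5 : Summable fun i : IdxM N => Real.log (I0 ((2 * lam * ci i : ℝ) : ℂ)).re :=
    (idx_sm hs').congr h4
  have h6 := Real.rexp_tsum_eq_tprod (fun i : IdxM N => by
    have := Pool.Agent.Q174.LQ.one_le_I0 (2 * lam * ci i)
    exact lt_of_lt_of_le one_pos this) h5
  rw [← h6]
  refine ⟨?_, Real.exp_pos _⟩
  unfold RR
  rw [h2, h3, ← Real.exp_add]
  congr 1
  rw [tsum_congr h4]
  have e : ℓ 0 = Real.log (I0 ((4 * lam : ℝ) : ℂ)).re := by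
    rw [hℓ]
    simp only
    norm_num
  rw [e]
  ring

omit hA in
lemma sqrt_pow_eq (x : ℝ) (hx : 0 < x) (n : ℕ) :
    Real.sqrt x ^ n = Real.exp ((n : ℝ) / 2 * Real.log x) := by
  rw [Real.sqrt_eq_rpow, ← Real.rpow_natCast, ← Real.rpow_mul hx.le, Real.rpow_def_of_pos hx]
  congr 1
  ring

omit hA in
lemma I0_gt (lam : ℝ) : 0 < (I0 ((4 * lam : ℝ) : ℂ)).re := by
  have := Pool.Agent.Q174.LQ.one_le_I0 (4 * lam)
  linarith

omit hA in
lemma log_lt {lam : ℝ} (h0 : 0 < lam) (h1 : lam ≤ 1 / 8) : Real.log (I0 ((4 * lam : ℝ) : ℂ)).re < 4 * lam := by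
  have h2 := Pool.Agent.Q174.LQ.one_le_I0 (4 * lam)
  have h3 := Real.log_le_sub_one_of_pos (show 0 < (I0 ((4 * lam : ℝ) : ℂ)).re by linarith)
  have hx : ‖((4 * lam : ℝ) : ℂ)‖ = 4 * lam := by rw [Complex.norm_real, Real.norm_of_nonneg (by positivity)]
  have h4 := Pool.Agent.Q174.LQ.norm_I0_sub (w := ((4 * lam : ℝ) : ℂ)) (by rw [hx]; linarith)
  rw [hx] at h4
  have h5 : |(I0 ((4 * lam : ℝ) : ℂ) - 1).re| ≤ ‖I0 ((4 * lam : ℝ) : ℂ) - 1‖ := abs_re_le_norm _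
  rw [sub_re, one_re] at h5
  have h6 := (abs_le.1 h5).2
  nlinarith

omit hA in
lemma gg_gt {lam : ℝ} (h0 : 0 < lam) (h1 : lam ≤ 1 / 8) : 1 < gg lam := by
  unfold gg
  have hs : 0 < Real.sqrt (I0 ((4 * lam : ℝ) : ℂ)).re := Real.sqrt_pos.2 (I0_gt lam)
  rw [one_lt_div hs, Real.sqrt_lt' (Real.exp_pos _), ← Real.exp_nat_mul]
  have h2 := log_lt h0 h1
  rw [Real.log_lt_iff_lt_exp (I0_gt lam)] at h2
  refine h2.trans_eq ?_
  congr 1
  push_cast
  ring

/-- the lower bound of the mean value theorem -/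
theorem RR_gg {K : ℂ → ℂ} (hK : ∀ t : ℂ, ‖t‖ = 1 / 2 → K t = ∑' γ : ℝ, (N γ : ℂ) / (1 + (γ : ℂ) ^ 2 - t))
    {lam : ℝ} (h0 : 0 < lam) (h1 : lam ≤ 1 / 8) :
    RR K lam * gg lam ^ N 0 = Real.exp (lam * (2 * (N 0 : ℝ))) *
      (∏' i : IdxM N, (I0 ((2 * lam * ci i : ℝ) : ℂ)).re) := by
  obtain ⟨hR, hP⟩ := RR_eq hA hK h0 h1
  rw [hR]
  unfold gg
  rw [div_pow, sqrt_pow_eq _ (I0_gt lam), ← Real.exp_nat_mul]
  have hne := Real.exp_ne_zero ((N 0 : ℝ) / 2 * Real.log (I0 ((4 * lam : ℝ) : ℂ)).re)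
  have e : Real.exp ((N 0 : ℝ) * (2 * lam)) = Real.exp (lam * (2 * (N 0 : ℝ))) := by
    congr 1
    ring
  rw [e]
  field_simp

end Pool.Agent.Q129.NF
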