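import Pool.Agent.Q129.NF.Apf

set_option autoImplicit false

/-! # Project NF, job EXPM: the exponential mean -/

namespace Pool.Agent.Q129.NF

open MeasureTheory Filter Topology Set Complex
open Pool.Agent.Q253.LQ (I0)
open Pool.Agent.Q253.LM (NoRel IdxM)
open Pool.Agent.Q253.NF (APF RR gg TN)

/-- JOB EXPM -/
theorem t_EXPM : Pool.Agent.Q253.NF.S_EXPM := by
  intro N f K lam m hA hK h0 h1 hm
  obtain ⟨r, hrm, hB, hr0, hr⟩ := rem hA
  obtain ⟨⟨M, hm1, hm2, hm3, hm4⟩, hT⟩ := Pool.Agent.Q151.LQ.t_MV (IdxM N) gi ci (2 * (N 0 : ℝ)) lam r gi_pos ci_pos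
    (ci_sm hA) h0 hrm hB hr0
  rw [← RR_gg hA hK h0 h1] at hm1 hm2 hm3 hT
  have hg := gg_gt h0 h1
  have hRpos : 0 < RR K lam := Real.exp_pos _
  have hle : RR K lam * gg lam ^ m ≤ RR K lam * gg lam ^ N 0 :=
    mul_le_mul_of_nonneg_left (pow_le_pow_right₀ hg.le hm) hRpos.le
  have hlt : N 0 ≠ m → RR K lam * gg lam ^ m < RR K lam * gg lam ^ N 0 := fun h =>
    mul_lt_mul_of_pos_left (pow_lt_pow_right₀ hg (lt_of_le_of_ne hm (Ne.symm h))) hRpos
  have hcongr : ∀ U : ℝ, 0 ≤ U → (1 / U) * ∫ u in (0 : ℝ)..U, Real.exp (lam * (2 * (N 0 : ℝ) +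
      ∑' i : IdxM N, 2 * ci i * Real.cos (gi i * u) + r u)) =
      (1 / U) * ∫ u in (0 : ℝ)..U, Real.exp (lam * f u) := by
    intro U hU
    congr 1
    refine intervalIntegral.integral_congr fun u hu => ?_
    rw [uIcc_of_le hU] at hu
    have h2 := hr u hu.1
    unfold AP at h2
    rw [h2]
  have low : ∀ ε : ℝ, 0 < ε → ∀ᶠ U : ℝ in atTop,
      M - ε ≤ (1 / U) * ∫ u in (0 : ℝ)..U, Real.exp (lam * f u) := by
    intro ε hε
    filter_upwards [hm4 ε hε, eventually_ge_atTop 0] with U hU hU0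
    rw [hcongr U hU0] at hU
    exact hU
  have hAA : (N 0 = m ∧ LinearIndependent ℚ (fun i : IdxM N => (i.1 : ℝ))) →
      Tendsto (fun U : ℝ => (1 / U) * ∫ u in (0 : ℝ)..U, Real.exp (lam * f u)) atTop
        (𝓝 (RR K lam * gg lam ^ m)) := by
    rintro ⟨rfl, hL⟩
    refine (hT hL).congr' ?_
    filter_upwards [eventually_ge_atTop 0] with U hU0
    exact hcongr U hU0
  have hBB : Tendsto (fun U : ℝ => (1 / U) * ∫ u in (0 : ℝ)..U, Real.exp (lam * f u)) atTop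
        (𝓝 (RR K lam * gg lam ^ m)) → ∀ ε : ℝ, 0 < ε → ∀ᶠ U : ℝ in atTop,
      (1 / U) * ∫ u in (0 : ℝ)..U, Real.exp (lam * f u) ≤ RR K lam * gg lam ^ m + ε := by
    intro h ε hε
    filter_upwards [h.eventually (gt_mem_nhds
      (show RR K lam * gg lam ^ m < RR K lam * gg lam ^ m + ε by linarith))] with U hU using le_of_lt hU
  have hCC : (∀ ε : ℝ, 0 < ε → ∀ᶠ U : ℝ in atTop,
      (1 / U) * ∫ u in (0 : ℝ)..U, Real.exp (lam * f u) ≤ RR K lam * gg lam ^ m + ε) →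
      (N 0 = m ∧ LinearIndependent ℚ (fun i : IdxM N => (i.1 : ℝ))) := by
    intro h
    by_contra hcon
    have hMlt : RR K lam * gg lam ^ m < M := by
      by_cases hNm : N 0 = m
      · have hL : ¬ LinearIndependent ℚ (gi : IdxM N → ℝ) := fun hL => hcon ⟨hNm, hL⟩
        exact lt_of_le_of_lt hle (hm2 hL)
      · exact lt_of_lt_of_le (hlt hNm) hm1
    have hd : 0 < (M - RR K lam * gg lam ^ m) / 3 := by linarith
    obtain ⟨U, hU1, hU2⟩ := ((h _ hd).and (low _ hd)).exists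
    linarith
  refine ⟨⟨fun h => hBB (hAA h), hCC⟩, ⟨hAA, fun h => hCC (hBB h)⟩, fun ε hε => ?_⟩
  filter_upwards [low ε hε] with U hU
  linarith

end Pool.Agent.Q129.NF
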