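import Pool.Agent.Q129.NF.Apf
import Pool.Agent.Q38.LM.MN
import Pool.Agent.Q68.LM.TR
import Pool.Agent.Q68.LM.GF
import Pool.Agent.Q68.LM.TT
import Pool.Agent.Q68.LM.RL
import Pool.Agent.Q223.LM.TC

set_option autoImplicit false

/-! # Project NF, job MOMT: the moments -/

namespace Pool.Agent.Q129.NF

open MeasureTheory Filter Topology Set Complex
open Pool.Agent.Q253.LQ (I0)
open Pool.Agent.Q253.LM (NoRel IdxM T R fr)
open Pool.Agent.Q253.NF (APF RR gg TN)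

open Classical in
/-- the multiplicities without the value at zero -/
noncomputable def N0' (N : ℝ → ℕ) (x : ℝ) : ℕ := if x = 0 then 0 else N x

lemma N0'_pos (N : ℝ → ℕ) {x : ℝ} (hx : 0 < x) : N0' N x = N x := by
  unfold N0'
  rw [if_neg hx.ne']

lemma N0'_zero (N : ℝ → ℕ) : N0' N 0 = 0 := by
  unfold N0'
  rw [if_pos rfl]

lemma I0_neg (w : ℂ) : I0 (-w) = I0 w := by
  unfold I0
  refine tsum_congr fun k => ?_
  rw [neg_div, Even.neg_pow ⟨k, by ring⟩]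

lemma I0_zero : I0 0 = 1 := by
  unfold I0
  rw [tsum_eq_single 0]
  · simp
  · intro k hk
    simp [hk]

lemma RR_neg (K : ℂ → ℂ) (lam : ℝ) : RR K (-lam) = RR K lam := by
  unfold RR
  congr 3
  have e : (fun t : ℂ => K t * Complex.log (I0 (4 * ((-lam : ℝ) : ℂ) / t))) =
      fun t : ℂ => K t * Complex.log (I0 (4 * (lam : ℂ) / t)) := by
    funext t
    have : 4 * ((-lam : ℝ) : ℂ) / t = -(4 * (lam : ℂ) / t) := by push_cast; ring
    rw [this, I0_neg]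
  rw [e]

lemma RR_zero (K : ℂ → ℂ) : RR K 0 = 1 := by
  unfold RR
  have e : (fun t : ℂ => K t * Complex.log (I0 (4 * ((0 : ℝ) : ℂ) / t))) = fun _ => 0 := by
    funext t
    rw [Complex.ofReal_zero, mul_zero, zero_div, I0_zero, Complex.log_one, mul_zero]
  have e2 : (∮ t in C(0, 1 / 2), K t * Complex.log (I0 (4 * ((0 : ℝ) : ℂ) / t))) = 0 := by
    rw [show (∮ t in C(0, 1 / 2), K t * Complex.log (I0 (4 * ((0 : ℝ) : ℂ) / t))) =
      ∮ t in C(0, 1 / 2), (fun t : ℂ => K t * Complex.log (I0 (4 * ((0 : ℝ) : ℂ) / t))) t from rfl, e]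
    simp [circleIntegral]
  rw [e2, mul_zero, Complex.zero_re, Real.exp_zero]

/-- the function whose derivatives are the trivial parts -/
noncomputable def FF (N : ℝ → ℕ) (K : ℂ → ℂ) (lam : ℝ) : ℝ :=
  RR K lam / Real.sqrt (I0 ((4 * lam : ℝ) : ℂ)).re ^ N 0

lemma FF_neg (N : ℝ → ℕ) (K : ℂ → ℂ) (lam : ℝ) : FF N K (-lam) = FF N K lam := by
  unfold FF
  rw [RR_neg]
  have : ((4 * -lam : ℝ) : ℂ) = -((4 * lam : ℝ) : ℂ) := by push_cast; ring
  rw [this, I0_neg]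

lemma FF_zero (N : ℝ → ℕ) (K : ℂ → ℂ) : FF N K 0 = 1 := by
  unfold FF
  rw [RR_zero, mul_zero, Complex.ofReal_zero, I0_zero, Complex.one_re, Real.sqrt_one, one_pow, div_one]

lemma T_congr {M M' : {γ : ℝ // 0 < γ} → ℕ} (h : M = M') (k : ℕ) :
    T (fun i : Σ γ, Fin (M γ) => (i.1 : ℝ)) (fun i : Σ γ, Fin (M γ) => 2 / (1 + (i.1 : ℝ) ^ 2)) k =
    T (fun i : Σ γ, Fin (M' γ) => (i.1 : ℝ)) (fun i : Σ γ, Fin (M' γ) => 2 / (1 + (i.1 : ℝ) ^ 2)) k := by
  subst h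
  rfl

lemma NoRel_congr {M M' : {γ : ℝ // 0 < γ} → ℕ} (h : M = M') (k : ℕ) :
    NoRel (fun i : Σ γ, Fin (M γ) => (i.1 : ℝ)) k ↔ NoRel (fun i : Σ γ, Fin (M' γ) => (i.1 : ℝ)) k := by
  subst h
  rfl

variable {N : ℝ → ℕ} {f : ℝ → ℝ}

lemma T_eq (hA : APF N f) (k : ℕ) : T (gi : IdxM N → ℝ) ci k = TN N k := by
  have h1 : (fun γ : {γ : ℝ // 0 < γ} => N γ) = fun γ : {γ : ℝ // 0 < γ} => N0' N γ := by
    funext γ
    rw [N0'_pos N γ.2]
  have h2 := T_congr h1 k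
  have h3 := Pool.Agent.Q68.LM.t_TT (N0' N) (fun x => 2 / (1 + x ^ 2)) k
    (fun x => by
      by_cases hx : x = 0
      · rw [hx, neg_zero]
      · unfold N0'
        rw [if_neg hx, if_neg (neg_ne_zero.2 hx), hA.even]) (N0'_zero N) (fun x => by rw [neg_sq])
    (fun x => by positivity) (by
      refine Summable.of_nonneg_of_le (fun x => by positivity) (fun x => ?_) (hA.sum.mul_left 2)
      have h4 : ((N0' N x : ℕ) : ℝ) ≤ N x := by
        unfold N0'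
        split_ifs
        · simp
        · exact le_rfl
      calc ((N0' N x : ℕ) : ℝ) * (2 / (1 + x ^ 2)) ≤ (N x : ℝ) * (2 / (1 + x ^ 2)) :=
            mul_le_mul_of_nonneg_right h4 (by positivity)
        _ = 2 * ((N x : ℝ) / (1 + x ^ 2)) := by ring)
  have h4 : T (gi : IdxM N → ℝ) ci k = T (fun i : Σ γ : {γ : ℝ // 0 < γ}, Fin (N γ) => (i.1 : ℝ))
      (fun i : Σ γ : {γ : ℝ // 0 < γ}, Fin (N γ) => 2 / (1 + (i.1 : ℝ) ^ 2)) k := rfl
  rw [h4, h2]
  refine Eq.trans h3 ?_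
  unfold TN
  refine tsum_congr fun s => ?_
  by_cases hs : ∑ l, s l = 0
  · by_cases hz : ∀ l, s l ≠ 0
    · rw [if_pos hs, if_pos ⟨hs, hz⟩]
      refine Finset.prod_congr rfl fun l _ => ?_
      unfold N0'
      rw [if_neg (hz l)]
    · rw [if_pos hs, if_neg (fun h => hz h.2)]
      push Not at hz
      obtain ⟨l, hl⟩ := hz
      refine Finset.prod_eq_zero (Finset.mem_univ l) ?_
      rw [hl, N0'_zero, Nat.cast_zero, zero_mul]
  · rw [if_neg hs, if_neg (fun h => hs h.1)]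

lemma NoRel_sub {p q : ℝ → Prop} (h : p = q) (k : ℕ) :
    NoRel (fun γ : {γ : ℝ // p γ} => (γ : ℝ)) k ↔ NoRel (fun γ : {γ : ℝ // q γ} => (γ : ℝ)) k := by
  subst h
  rfl

lemma lim_k (hA : APF N f) (k : ℕ) :
    Tendsto (fun U : ℝ => (1 / U) * ∫ u in (0 : ℝ)..U, (f u - 2 * N 0) ^ k) atTop
      (𝓝 (T (gi : IdxM N → ℝ) ci k)) := by
  obtain ⟨r, hrm, hB, hr0, hr⟩ := rem hA
  have h1 := Pool.Agent.Q38.LM.t_MN (IdxM N) gi ci r k ci_pos (ci_sm hA) hrm hB hr0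
  refine h1.congr' ?_
  filter_upwards [eventually_ge_atTop 0] with U hU
  congr 1
  refine intervalIntegral.integral_congr fun u hu => ?_
  rw [uIcc_of_le hU] at hu
  have h2 := hr u hu.1
  unfold AP at h2
  rw [h2]
  congr 1
  ring

lemma T_one : T (gi : IdxM N → ℝ) ci 1 = 0 := by
  classical
  unfold T
  refine (tsum_congr fun t => ?_).trans tsum_zero
  rw [if_neg]
  rw [Fin.sum_univ_one]
  have h := gi_pos (t 0).1
  unfold fr
  split_ifs
  · exact h.ne'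
  · exact (neg_neg_of_pos h).ne

/-- the trivial parts -/
theorem FFder (hA : APF N f) {K : ℂ → ℂ}
    (hK : ∀ t : ℂ, ‖t‖ = 1 / 2 → K t = ∑' γ : ℝ, (N γ : ℂ) / (1 + (γ : ℂ) ^ 2 - t)) (k : ℕ) :
    iteratedDeriv k (FF N K) 0 = R (ci : IdxM N → ℝ) k := by
  have hGF := Pool.Agent.Q68.LM.t_GF Pool.Agent.Q38.LM.t_MN Pool.Agent.Q68.LM.t_TR
  obtain ⟨g0, g1, g2⟩ := hGF (IdxM N) ci ci_pos (ci_sm hA)
  refine Pool.Agent.Q223.LM.t_TC (FF N K) (R (ci : IdxM N → ℝ)) ?_ (FF_neg N K) g1 (fun x hx hx1 => ?_) k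
  · rw [FF_zero, g0]
  · have h1 : FF N K x = ∏' i : IdxM N, (I0 ((2 * x * ci i : ℝ) : ℂ)).re := by
      unfold FF
      rw [(RR_eq hA hK hx hx1).1, sqrt_pow_eq _ (I0_gt x)]
      have hne := Real.exp_ne_zero ((N 0 : ℝ) / 2 * Real.log (I0 ((4 * x : ℝ) : ℂ)).re)
      field_simp
    rw [h1]
    exact g2 x hx

/-- JOB MOMT -/
theorem t_MOMT : Pool.Agent.Q253.NF.S_MOMT := by
  intro N f K hA hK
  have hFF : (fun lam => RR K lam / Real.sqrt (I0 ((4 * lam : ℝ) : ℂ)).re ^ N 0) = FF N K := rfl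
  rw [hFF]
  refine ⟨?_, fun k => ?_⟩
  · have h1 := lim_k hA 1
    rw [T_one] at h1
    have h2 := h1.add_const (2 * (N 0 : ℝ))
    rw [zero_add] at h2
    refine h2.congr' ?_
    filter_upwards [eventually_gt_atTop 0] with U hU
    simp only [pow_one]
    rw [intervalIntegral.integral_sub (hA.cont.intervalIntegrable _ _)
      (continuous_const.intervalIntegrable _ _), intervalIntegral.integral_const, smul_eq_mul, sub_zero]
    field_simp
    ring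
  · have hder := FFder hA hK k
    obtain ⟨a, b⟩ := Pool.Agent.Q68.LM.t_TR (IdxM N) gi ci k ci_pos (ci_sm hA)
    have hGF := Pool.Agent.Q68.LM.t_GF Pool.Agent.Q38.LM.t_MN Pool.Agent.Q68.LM.t_TR
    obtain ⟨-, g1, -⟩ := hGF (IdxM N) ci ci_pos (ci_sm hA)
    have hl := lim_k hA k
    rw [T_eq hA] at hl a b
    rw [hder]
    refine ⟨hl, g1 k, a, ?_⟩
    rw [b]
    have h1 : (fun γ : {γ : ℝ // 0 < γ} => N γ) = fun γ : {γ : ℝ // 0 < γ} => N0' N γ := by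
      funext γ
      rw [N0'_pos N γ.2]
    have h2 : NoRel (gi : IdxM N → ℝ) k ↔ NoRel (fun i : IdxM (N0' N) => (i.1 : ℝ)) k := NoRel_congr h1 k
    rw [h2, Pool.Agent.Q68.LM.t_RL (N0' N) k]
    have h3 : (fun γ : ℝ => 0 < γ ∧ N0' N γ ≠ 0) = fun γ : ℝ => 0 < γ ∧ N γ ≠ 0 := by
      funext γ
      by_cases hγ : 0 < γ
      · rw [N0'_pos N hγ]
      · simp [hγ]
    have h4 := NoRel_sub h3 k
    refine and_congr h4 ?_
    refine imp_congr_right fun _ => imp_congr_right fun _ => forall_congr' fun γ =>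
      ⟨fun h hγ => ?_, fun h hγ => ?_⟩
    · have := h hγ
      rwa [N0'_pos N hγ] at this
    · rw [N0'_pos N hγ]
      exact h hγ

end Pool.Agent.Q129.NF
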